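import Pool.Agent.TH181.MX.Fin

/-!
# Montgomery's conjecture on Weyl sums: the exceptional linear coefficients, for every leading coefficient

For a fixed leading coefficient `t`, the second moment in the linear coefficient and the fourth moment, bounded by
`N^(3+δ) (1/q + 1/N)^(8/2^k)` with repeated differencing, a maximal inequality for incomplete sums, local constancy at
scale `1/N` and a covering argument bound the Hausdorff dimension of the set of linear coefficients `ξ` at which the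
inequality of `H_k(η)` fails. With `η = 1/k` the bound is `1/3 - 4ε` for `k = 3`, `1/2 - 4ε` for `k = 4` and at most
`2/k - 2ε` for every `k`.
-/

set_option autoImplicit false

namespace Pool.Agent.Results.MP_3b0be2_nt.EveryLeadingCoefficient

/-- For all `k ≥ 3`, every real `t`, all `0 ≤ η ≤ 1` and `ε > 0`, the set of real `ξ` such that for no constant `C`
the inequality `|∑_{n ≤ N} e(t n^k + ξ n)| ≤ C N^(1+ε) (1/q + 1/N + q/N^k)^η` holds for all integers `N ≥ 2` and
all coprime `1 ≤ a < q ≤ N` with `|t - a/q| ≤ 1/q^2`, has Hausdorff dimension at most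
`min (2(η - ε), 4(η - ε) - 8/2^k)`. -/
theorem result : ∀ k : ℕ, 3 ≤ k → ∀ t η ε : ℝ, 0 ≤ η → η ≤ 1 → 0 < ε →
    dimH {ξ : ℝ | ¬ ∃ C : ℝ, ∀ N : ℕ, 2 ≤ N → ∀ a q : ℕ, 1 ≤ a → a < q → q ≤ N → Nat.Coprime a q →
      |t - (a : ℝ) / (q : ℝ)| ≤ 1 / (q : ℝ) ^ 2 →
      ‖∑ n ∈ Finset.Icc 1 N,
          Complex.exp (2 * (Real.pi : ℂ) * Complex.I * (((t * (n : ℝ) ^ k + ξ * (n : ℝ)) : ℝ) : ℂ))‖ ≤
        C * (N : ℝ) ^ (1 + ε) *
          (1 / (q : ℝ) + 1 / (N : ℝ) + (q : ℝ) / (N : ℝ) ^ k) ^ η} ≤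
      ENNReal.ofReal (min (2 * (η - ε)) (4 * (η - ε) - 8 / 2 ^ k)) := by
  intro k hk t η ε hη hη1 hε
  exact Pool.Agent.TH181.MX.dim_every k hk t η ε hη hη1 hε

end Pool.Agent.Results.MP_3b0be2_nt.EveryLeadingCoefficient
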