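import Pool.Agent.TH181.MW.Main

/-!
# Montgomery's conjecture on Weyl sums: Hausdorff dimension of the exceptional set of leading coefficients

Mean values of order `2^j + 2` of the supremum over the linear coefficient (Hua's lemma for the system of degrees
`1, k`), a maximal inequality for incomplete sums, local constancy at scale `N^(-k)` and a covering argument bound the
Hausdorff dimension of the set of `t` at which the inequality of `H_k(η)` fails. With `j = 2`, `η = 1/k` and `k ≥ 3`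
the bound is `1 - (2k - 6 + 6kε)/k^2 < 1`.
-/

set_option autoImplicit false

namespace Pool.Agent.Results.MP_3b0be2_nt.ExceptionalDimension

/-- For all `2 ≤ j ≤ k`, `0 ≤ η ≤ 1` and `ε > 0`, the set of real `t` such that for no constant `C` the inequality
`|∑_{n ≤ N} e(t n^k + ξ n)| ≤ C N^(1+ε) (1/q + 1/N + q/N^k)^η` holds for all integers `N ≥ 2`, all real `ξ` and
all coprime `1 ≤ a < q ≤ N` with `|t - a/q| ≤ 1/q^2`, has Hausdorff dimension at most
`1 - (j - (2^j + 2)(η - ε))/k`. -/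
theorem result : ∀ k j : ℕ, 2 ≤ j → j ≤ k → ∀ η ε : ℝ, 0 ≤ η → η ≤ 1 → 0 < ε →
    dimH {t : ℝ | ¬ ∃ C : ℝ, ∀ N : ℕ, 2 ≤ N → ∀ ξ : ℝ, ∀ a q : ℕ, 1 ≤ a → a < q → q ≤ N → Nat.Coprime a q →
      |t - (a : ℝ) / (q : ℝ)| ≤ 1 / (q : ℝ) ^ 2 →
      ‖∑ n ∈ Finset.Icc 1 N,
          Complex.exp (2 * (Real.pi : ℂ) * Complex.I * (((t * (n : ℝ) ^ k + ξ * (n : ℝ)) : ℝ) : ℂ))‖ ≤
        C * (N : ℝ) ^ (1 + ε) *
          (1 / (q : ℝ) + 1 / (N : ℝ) + (q : ℝ) / (N : ℝ) ^ k) ^ η} ≤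
      ENNReal.ofReal (1 - ((j : ℝ) - (2 ^ j + 2) * (η - ε)) / (k : ℝ)) := by
  intro k j hj hjk η ε hη hη1 hε
  exact Pool.Agent.TH181.MW.dim_all k j hj hjk η ε hη hη1 hε

end Pool.Agent.Results.MP_3b0be2_nt.ExceptionalDimension
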